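import Pool.Agent.H979.GW.StmB
import Pool.Agent.H979.QIP.LZ

set_option autoImplicit false
set_option linter.unusedSectionVars false
set_option linter.unusedVariables false

open MeasureTheory ProbabilityTheory Filter Topology Set
open scoped ENNReal NNReal

/-!
# Forward-backward martingale bound for reversible chains (project GW, task RV2)
-/

namespace Pool.Agent.H113

namespace RV2

open Pool.Agent.H979.QIP

variable {X : Type} [Countable X] [MeasurableSpace X] [MeasurableSingletonClass X]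
variable (q : X → Measure X) [∀ x, IsProbabilityMeasure (q x)] (π : X → ℝ≥0∞)

theorem wt_aux (h : ∀ x y, π x * q x {y} = π y * q y {x}) (p : ℕ → X) (N : ℕ) :
    π (p N) * ∏ k ∈ Finset.range N, q (p (k + 1)) {p k} = π (p 0) * wt q N p := by
  induction N with
  | zero => simp [wt]
  | succ N ih =>
    have e : wt q (N + 1) p = wt q N p * q (p N) {p (N + 1)} := by
      unfold wt; rw [Finset.prod_range_succ]
    rw [e, Finset.prod_range_succ, ← mul_assoc (π (p 0)), ← ih, mul_comm (∏ k ∈ Finset.range N, _),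
      ← mul_assoc, h (p (N + 1)) (p N)]
    ring

theorem wt_rev (h : ∀ x y, π x * q x {y} = π y * q y {x}) (N : ℕ) (p p' : ℕ → X)
    (hp : ∀ k ≤ N, p' k = p (N - k)) :
    π (p' 0) * wt q N p' = π (p 0) * wt q N p := by
  rw [← wt_aux q π h p N, hp 0 (Nat.zero_le _), Nat.sub_zero]
  congr 1
  unfold wt
  rw [← Finset.prod_range_reflect]
  refine Finset.prod_congr rfl fun k hk => ?_
  have hk := Finset.mem_range.1 hk
  rw [hp _ (by omega), hp _ (by omega)]
  have e1 : N - (N - 1 - k + 1) = k := by omega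
  have e2 : N - (N - 1 - k) = k + 1 := by omega
  rw [e1, e2]

theorem tsum_pi {N : ℕ} {F : (ℕ → X) → ℝ≥0∞} (h : Dep N F) :
    ∑' x, π x * ∫⁻ w, F w ∂(P q x) =
      ∑' p : Fin (N + 1) → X, F (ext p) * (π (ext p 0) * wt q N (ext p)) := by
  simp_rw [lintegral_dep q h, P_cyl, ← ENNReal.tsum_mul_left]
  rw [ENNReal.tsum_comm]
  refine tsum_congr fun p => ?_
  rw [tsum_eq_single (ext p 0)]
  · rw [if_pos rfl]; ring
  · intro x hx
    rw [if_neg (Ne.symm hx), mul_zero, mul_zero]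

theorem reversal_pi (hq : ∀ x y, π x * q x {y} = π y * q y {x}) {N : ℕ} {F : (ℕ → X) → ℝ≥0∞}
    (h : Dep N F) :
    ∑' x, π x * ∫⁻ w, F (rev N w) ∂(P q x) = ∑' x, π x * ∫⁻ w, F w ∂(P q x) := by
  have h' : Dep N (fun w => F (rev N w)) := by
    intro w w' hw
    refine h _ _ fun k hk => ?_
    unfold rev
    exact hw _ (by omega)
  rw [tsum_pi q π h', tsum_pi q π h]
  let e : (Fin (N + 1) → X) ≃ (Fin (N + 1) → X) := Equiv.arrowCongr Fin.revPerm (Equiv.refl X)
  have he : ∀ (p : Fin (N + 1) → X), ∀ k ≤ N, ext (e p) k = ext p (N - k) := by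
    intro p k hk
    simp only [Pool.Agent.H979.QIP.ext, e, Equiv.arrowCongr_apply, Equiv.coe_refl, Function.comp, Fin.revPerm_symm,
      Fin.revPerm_apply, id]
    congr 1
    ext
    simp [Fin.val_rev]
    omega
  rw [← e.tsum_eq]
  refine tsum_congr fun p => ?_
  congr 1
  · refine h _ _ fun k hk => ?_
    unfold rev
    rw [he p _ (by omega)]
    congr 1
    omega
  · exact wt_rev q π hq N _ _ (he p)

theorem lint_zero (f : X → ℝ≥0∞) (x : X) : ∫⁻ w, f (w 0) ∂(P q x) = f x := by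
  rw [lintegral_congr_ae (g := fun _ => f x), lintegral_const, measure_univ, mul_one]
  filter_upwards [P_zero q x] with w hw
  rw [hw]

theorem stat (hq : ∀ x y, π x * q x {y} = π y * q y {x}) (f : X → ℝ≥0∞) (j : ℕ) :
    ∑' x, π x * ∫⁻ w, f (w j) ∂(P q x) = ∑' x, π x * f x := by
  have hD : Dep j (fun w : ℕ → X => f (w j)) := fun w w' hw => by
    show f (w j) = f (w' j)
    rw [hw j le_rfl]
  rw [← reversal_pi q π hq hD]
  refine tsum_congr fun x => ?_
  have : (fun w : ℕ → X => f (rev j w j)) = fun w => f (w 0) := by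
    funext w
    unfold rev
    rw [Nat.sub_self]
  simp only [this]
  rw [lint_zero]

theorem stat_A (hq : ∀ x y, π x * q x {y} = π y * q y {x}) (f : X → ℝ≥0∞) (n : ℕ) :
    ∑' x, π x * ∫⁻ w, A f n w ∂(P q x) = n * ∑' x, π x * f x := by
  have e : ∀ x, π x * ∫⁻ w, A f n w ∂(P q x) =
      ∑ j ∈ Finset.range n, π x * ∫⁻ w, f (w j) ∂(P q x) := by
    intro x
    unfold A
    have hm : ∀ j ∈ Finset.range n, Measurable (fun w : ℕ → X => f (w j)) := fun j _ =>
      (measurable_of_countable f).comp (measurable_pi_apply j)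
    rw [lintegral_finsetSum _ hm, Finset.mul_sum]
  simp_rw [e]
  rw [Summable.tsum_finsetSum fun _ _ => ENNReal.summable]
  simp_rw [stat q π hq]
  rw [Finset.sum_const, Finset.card_range, nsmul_eq_mul]

theorem pointwise (Φ : X → ℝ) (n : ℕ) (w : ℕ → X) :
    (∑ s ∈ Finset.range n, bm q (fun x y => Φ y - Φ x) (w s)) ^ 2 ≤
      (0 + S (cen q (fun x y => Φ y - Φ x)) n w) ^ 2 +
      (0 + S (cen q (fun x y => Φ y - Φ x)) n (rev n w)) ^ 2 +
      (bm q (fun x y => Φ y - Φ x) (w 0)) ^ 2 + (bm q (fun x y => Φ y - Φ x) (w n)) ^ 2 := by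
  set R : X → X → ℝ := fun x y => Φ y - Φ x with hR
  have h1 := decomp q R (fun x y => by simp [hR]) n w n le_rfl
  rw [Nat.sub_self, S_zero, sub_zero] at h1
  have h2 : S (cen q R) n w = S R n w - ∑ s ∈ Finset.range n, bm q R (w s) := by
    unfold cen S
    rw [Finset.sum_sub_distrib]
  set M := S (cen q R) n w
  set M' := S (cen q R) n (rev n w)
  set T := ∑ s ∈ Finset.range n, bm q R (w s)
  set a := bm q R (w 0)
  set b := bm q R (w n)
  have h3 : T = (- M - M' + a - b) / 2 := by linarith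
  rw [h3]
  nlinarith [sq_nonneg (M - M'), sq_nonneg (M + a), sq_nonneg (M - b), sq_nonneg (M' + a),
    sq_nonneg (M' - b), sq_nonneg (a + b)]

end RV2

open Pool.Agent.H979.QIP RV2 in
theorem gw_rv2 : Pool.Agent.H979.GW.S_RV2 := by
  intro X _ _ _ q _ π hπ hq Φ hV n x₀ hn
  set R : X → X → ℝ := fun x y => Φ y - Φ x with hR
  set E : ℝ≥0∞ := ∑' x, π x * V q R x with hE
  have hVc : ∀ x, V q (cen q R) x ≠ ∞ := fun x => ne_top_of_le_ne_top (hV x) (V_cen_le q (hV x))
  have h0 : ∀ x, bm q (cen q R) x = 0 := fun x => bm_cen q (hV x)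
  have hDM : Dep n (fun w : ℕ → X => ENNReal.ofReal ((0 + S (cen q R) n w) ^ 2)) := by
    intro w w' hw
    show ENNReal.ofReal ((0 + S (cen q R) n w) ^ 2) = ENNReal.ofReal ((0 + S (cen q R) n w') ^ 2)
    rw [dep_S (cen q R) le_rfl w w' hw]
  have hDM' : Dep n (fun w : ℕ → X => ENNReal.ofReal ((0 + S (cen q R) n (rev n w)) ^ 2)) := by
    intro w w' hw
    refine hDM _ _ fun k hk => ?_
    unfold rev
    exact hw _ (by omega)
  have hma : ∀ j : ℕ, Measurable (fun w : ℕ → X => ENNReal.ofReal (bm q R (w j) ^ 2)) := fun j =>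
    (measurable_of_countable (fun x : X => ENNReal.ofReal (bm q R x ^ 2))).comp
      (measurable_pi_apply j)
  -- the four terms
  have t1 : ∑' x, π x * ∫⁻ w, ENNReal.ofReal ((0 + S (cen q R) n w) ^ 2) ∂(P q x) ≤ n * E := by
    have e : ∀ x, ∫⁻ w, ENNReal.ofReal ((0 + S (cen q R) n w) ^ 2) ∂(P q x) =
        ∫⁻ w, A (V q (cen q R)) n w ∂(P q x) := fun x => by
      rw [second_moment q hVc h0 n x 0]; simp
    simp_rw [e]
    rw [stat_A q π hq]
    refine mul_le_mul' le_rfl (ENNReal.tsum_le_tsum fun x => mul_le_mul' le_rfl (V_cen_le q (hV x)))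
  have t2 : ∑' x, π x * ∫⁻ w, ENNReal.ofReal ((0 + S (cen q R) n (rev n w)) ^ 2) ∂(P q x) ≤
      n * E := by
    rw [reversal_pi q π hq hDM]
    exact t1
  have t3 : ∀ j : ℕ, ∑' x, π x * ∫⁻ w, ENNReal.ofReal (bm q R (w j) ^ 2) ∂(P q x) ≤ E := by
    intro j
    rw [stat q π hq (fun x => ENNReal.ofReal (bm q R x ^ 2)) j]
    exact ENNReal.tsum_le_tsum fun x => mul_le_mul' le_rfl (sq_bm_le q (hV x))
  have hpt : ∀ w : ℕ → X, ENNReal.ofReal ((∑ s ∈ Finset.range n, bm q R (w s)) ^ 2) ≤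
      ENNReal.ofReal ((0 + S (cen q R) n w) ^ 2) +
      ENNReal.ofReal ((0 + S (cen q R) n (rev n w)) ^ 2) +
      ENNReal.ofReal (bm q R (w 0) ^ 2) + ENNReal.ofReal (bm q R (w n) ^ 2) := by
    intro w
    rw [← ENNReal.ofReal_add (sq_nonneg _) (sq_nonneg _),
      ← ENNReal.ofReal_add (by positivity) (sq_nonneg _),
      ← ENNReal.ofReal_add (by positivity) (sq_nonneg _)]
    exact ENNReal.ofReal_le_ofReal (pointwise q Φ n w)
  have hsum : ∀ x, π x * ∫⁻ w, ENNReal.ofReal ((∑ s ∈ Finset.range n, bm q R (w s)) ^ 2) ∂(P q x) ≤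
      π x * ∫⁻ w, ENNReal.ofReal ((0 + S (cen q R) n w) ^ 2) ∂(P q x) +
      π x * ∫⁻ w, ENNReal.ofReal ((0 + S (cen q R) n (rev n w)) ^ 2) ∂(P q x) +
      π x * ∫⁻ w, ENNReal.ofReal (bm q R (w 0) ^ 2) ∂(P q x) +
      π x * ∫⁻ w, ENNReal.ofReal (bm q R (w n) ^ 2) ∂(P q x) := by
    intro x
    have i1 : ∫⁻ w, (ENNReal.ofReal ((0 + S (cen q R) n w) ^ 2) +
        ENNReal.ofReal ((0 + S (cen q R) n (rev n w)) ^ 2) +
        ENNReal.ofReal (bm q R (w 0) ^ 2) + ENNReal.ofReal (bm q R (w n) ^ 2)) ∂(P q x) =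
        ∫⁻ w, ENNReal.ofReal ((0 + S (cen q R) n w) ^ 2) ∂(P q x) +
        ∫⁻ w, ENNReal.ofReal ((0 + S (cen q R) n (rev n w)) ^ 2) ∂(P q x) +
        ∫⁻ w, ENNReal.ofReal (bm q R (w 0) ^ 2) ∂(P q x) +
        ∫⁻ w, ENNReal.ofReal (bm q R (w n) ^ 2) ∂(P q x) := by
      rw [lintegral_add_right _ (hma n), lintegral_add_right _ (hma 0),
        lintegral_add_right _ hDM'.measurable]
    rw [← mul_add, ← mul_add, ← mul_add, ← i1]
    exact mul_le_mul' le_rfl (lintegral_mono hpt)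
  refine (ENNReal.le_tsum x₀).trans ((ENNReal.tsum_le_tsum hsum).trans ?_)
  rw [ENNReal.tsum_add, ENNReal.tsum_add, ENNReal.tsum_add]
  refine (add_le_add (add_le_add (add_le_add t1 t2) (t3 0)) (t3 n)).trans ?_
  have hn' : (1 : ℝ≥0∞) ≤ n := by exact_mod_cast hn
  have hE1 : E ≤ n * E := by
    calc E = 1 * E := (one_mul _).symm
      _ ≤ n * E := mul_le_mul' hn' le_rfl
  calc (n : ℝ≥0∞) * E + n * E + E + E ≤ n * E + n * E + n * E + n * E := by gcongr
    _ = 4 * (n * E) := by ring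
    _ ≤ 16 * (n * E) := mul_le_mul' (by norm_num) le_rfl
    _ = 16 * n * E := by ring

end Pool.Agent.H113
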